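import Pool.Agent.Helper2.BI.St

set_option autoImplicit false

namespace Pool.Agent.Helper98.BI

open Finset
open Pool.Agent.Helper2.BI

theorem fr_eq (b : ℕ →₀ ℕ) (T : Finset ℕ) (h : b.support ⊆ T) :
    fr b = ∑ q ∈ T, (b q : ℝ) / q := by
  unfold fr
  refine Finset.sum_subset h ?_
  intro q _ hq
  rw [Finsupp.notMem_support_iff] at hq
  simp [hq]

theorem hL3 : L3 := by
  intro S k Q hS b hb b' hb' hne m
  simp only [Ix, mem_filter, mem_finsupp_iff, mem_range] at hb hb'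
  obtain ⟨⟨hbS, hbq⟩, hbk⟩ := hb
  obtain ⟨⟨hbS', hbq'⟩, hbk'⟩ := hb'
  set T := b.support ∪ b'.support with hT
  have hTS : T ⊆ S := union_subset hbS hbS'
  have hTc : T.card ≤ 2 * k := by
    have := card_union_le b.support b'.support
    rw [hT]
    omega
  -- a place where they differ
  obtain ⟨q₀, hq₀⟩ : ∃ q, b q ≠ b' q := by
    by_contra hcon
    push Not at hcon
    exact hne (Finsupp.ext hcon)
  have hq₀T : q₀ ∈ T := by
    rw [hT, mem_union, Finsupp.mem_support_iff, Finsupp.mem_support_iff]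
    by_contra hcon
    push Not at hcon
    exact hq₀ (by rw [hcon.1, hcon.2])
  have hq₀p : q₀.Prime := (hS q₀ (hTS hq₀T)).1
  have hQ1 : 1 ≤ Q := le_trans hq₀p.one_lt.le (hS q₀ (hTS hq₀T)).2
  set R : ℕ := ∏ q ∈ T, q with hR
  have hRle : (R : ℝ) ≤ ((Q : ℝ) ^ k) ^ 2 := by
    have h1 : R ≤ Q ^ T.card := by
      rw [hR]
      exact Finset.prod_le_pow_card _ _ _ (fun q hq => (hS q (hTS hq)).2)
    have h2 : R ≤ Q ^ (2 * k) := h1.trans (Nat.pow_le_pow_right hQ1 hTc)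
    have h3 : (R : ℝ) ≤ (Q : ℝ) ^ (2 * k) := by exact_mod_cast h2
    calc (R : ℝ) ≤ (Q : ℝ) ^ (2 * k) := h3
      _ = ((Q : ℝ) ^ k) ^ 2 := by rw [← pow_mul, mul_comm k 2]
  set z : ℤ := ∑ q ∈ T, ((∏ r ∈ T.erase q, r : ℕ) : ℤ) * ((b q : ℤ) - b' q) - (R : ℤ) * m with hz
  have hzr : (z : ℝ) = (R : ℝ) * (fr b - fr b' - m) := by
    rw [fr_eq b T subset_union_left, fr_eq b' T subset_union_right, hz]
    push_cast
    rw [← Finset.sum_sub_distrib, mul_sub, Finset.mul_sum]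
    congr 1
    refine Finset.sum_congr rfl ?_
    intro q hq
    have hq0 : (q : ℝ) ≠ 0 := by
      have := (hS q (hTS hq)).1.pos
      positivity
    have h4 : (R : ℝ) = (q : ℝ) * ∏ r ∈ T.erase q, (r : ℝ) := by
      rw [hR]
      push_cast
      exact (Finset.mul_prod_erase T (fun r : ℕ => (r : ℝ)) hq).symm
    rw [h4]
    field_simp
  have hz0 : z ≠ 0 := by
    intro h0
    have h5 : ((q₀ : ℕ) : ℤ) ∣ ((∏ r ∈ T.erase q₀, r : ℕ) : ℤ) * ((b q₀ : ℤ) - b' q₀) := by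
      have h6 : ((∏ r ∈ T.erase q₀, r : ℕ) : ℤ) * ((b q₀ : ℤ) - b' q₀) =
          (R : ℤ) * m - ∑ q ∈ T.erase q₀,
            ((∏ r ∈ T.erase q, r : ℕ) : ℤ) * ((b q : ℤ) - b' q) := by
        have h7 := Finset.add_sum_erase T
          (fun q => ((∏ r ∈ T.erase q, r : ℕ) : ℤ) * ((b q : ℤ) - b' q)) hq₀T
        rw [h0] at hz
        linarith
      rw [h6]
      refine dvd_sub (Dvd.dvd.mul_right ?_ _) (Finset.dvd_sum ?_)
      · exact Int.natCast_dvd_natCast.2 (Finset.dvd_prod_of_mem _ hq₀T)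
      · intro q hq
        refine Dvd.dvd.mul_right ?_ _
        refine Int.natCast_dvd_natCast.2 (Finset.dvd_prod_of_mem _ ?_)
        rw [mem_erase] at hq ⊢
        exact ⟨fun h => hq.1 h.symm, hq₀T⟩
    have hp' : Prime ((q₀ : ℕ) : ℤ) := Nat.prime_iff_prime_int.1 hq₀p
    rcases hp'.dvd_or_dvd h5 with h8 | h8
    · have h9 : q₀ ∣ ∏ r ∈ T.erase q₀, r := Int.natCast_dvd_natCast.1 h8
      rw [Prime.dvd_finsetProd_iff hq₀p.prime] at h9
      obtain ⟨r, hr, hd⟩ := h9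
      rw [mem_erase] at hr
      have hrp := (hS r (hTS hr.2)).1
      exact hr.1 ((Nat.prime_dvd_prime_iff_eq hq₀p hrp).1 hd).symm
    · have h10 := hbq q₀ (hTS hq₀T)
      have h11 := hbq' q₀ (hTS hq₀T)
      have h12 : ((b q₀ : ℤ) - b' q₀) ≠ 0 := by
        intro h
        apply hq₀
        omega
      have h13 := Int.le_of_dvd (abs_pos.2 h12) ((dvd_abs _ _).2 h8)
      have h14 : |((b q₀ : ℤ) - b' q₀)| < q₀ := by
        rw [abs_lt]
        constructor <;> omega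
      omega
  have h15 : (1 : ℝ) ≤ |(z : ℝ)| := by
    have := Int.one_le_abs hz0
    exact_mod_cast this
  rw [hzr, abs_mul, Nat.abs_cast] at h15
  exact h15.trans (mul_le_mul_of_nonneg_right hRle (abs_nonneg _))

end Pool.Agent.Helper98.BI
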